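import Pool.Agent.Lib.TGL_h70.Conv3
import Pool.Agent.Lib.TGL.Conv2

/-!
# TANK G, TRACK L, row CONV, final form; `GLim k 0`
-/

set_option autoImplicit false

open Polynomial

namespace Pool.Agent.TGLh70

open Pool.Agent.LU2 (locV)
open Pool.Agent.TG (Ov ZDim IsModel Fin' LR UnR GLim)
open Pool.Agent.TAO (OVal VPos Ctx0 CtxR)
open Pool.Agent.ALLO (locv icl ICl)
open Pool.Agent.TGL

universe u w

section

variable {k K Ω : Type u} [Field k] [Field K] [Field Ω] [Algebra k K] [Algebra k Ω]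
  {𝕂 : Type w} [Field 𝕂] [LinearOrder 𝕂] [IsStrictOrderedRing 𝕂]
  {V : ValuationSubring K} {ι : K →ₐ[k] Ω} {w : OVal 𝕂 Ω} {n r D : ℕ}

/-- **Row CONV.** A limit frame over `Ω` of the limit ring gives a limit frame at `V`. -/
theorem exists_LE_Lim {n₀ : ℕ} (h : Ctx0 k w n₀) (hc : Cmp V ι w) {P : Submodule k K} {J : Type}
    [Fintype J] {S : J → K} (hS0 : ∀ j, S j ≠ 0) {Z : Set K} (B : TGL.LF k w r D)
    (hdim : r + D = n)
    (hR : B.R = ICl w (Lim w (P.map ι.toLinearMap) (Set.range fun j => ι (S j))) ι.fieldRange)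
    (hS : B.Lab (Set.range fun j => ι (S j))) (hZ : ∀ z ∈ Z, B.Mono (ι z))
    (ht : B.Tors (Set.range fun j => ι (S j))) :
    Nonempty (TG.LE n V (LR V P S) S Z) :=
  exists_LE h hc B hdim (LR V P S) (hR.trans (map_LR hc P hS0).symm) S Z hS hZ ht

theorem exists_LF_Lim {n₀ : ℕ} (h : Ctx0 k w n₀) (hc : Cmp V ι w) {P : Submodule k K} {J : Type}
    [Fintype J] {S : J → K} (hS0 : ∀ j, S j ≠ 0) {Z : Set K} (B : TGL.LF k w r D)
    (hdim : r + D = n)
    (hR : B.R = ICl w (Lim w (P.map ι.toLinearMap) (Set.range fun j => ι (S j))) ι.fieldRange)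
    (hS : B.Lab (Set.range fun j => ι (S j))) (hZ : ∀ z ∈ Z, B.Mono (ι z))
    (ht : B.Tors (Set.range fun j => ι (S j))) :
    Nonempty (TG.LF n V (LR V P S) S Z) := by
  obtain ⟨F⟩ := exists_LE_Lim h hc hS0 B hdim hR hS hZ ht
  exact ⟨F.toLF⟩

end

/-- The statement at one `V`, over the ambient field `AlgebraicClosure K`: it is enough to find
limit frames for valuations with values in ordered fields. -/
theorem exists_LF_of {k K : Type u} [Field k] [IsAlgClosed k] [Field K] [Algebra k K] {n : ℕ}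
    (htr : Algebra.trdeg k K = n) (hn : 0 < n) {P : Submodule k K} {J : Type} [Fintype J]
    {S : J → K} (hS0 : ∀ j, S j ≠ 0) {Z : Set K}
    (H : ∀ (𝕂 : Type u) [Field 𝕂] [LinearOrder 𝕂] [IsStrictOrderedRing 𝕂]
      (w : OVal 𝕂 (AlgebraicClosure K)) (r₀ : ℕ), 0 < r₀ → r₀ ≤ n → CtxR k w n r₀ →
      ∃ (r D : ℕ) (B : TGL.LF k w r D), r + D = n ∧
        B.R = ICl w (Lim w (P.map (IsScalarTower.toAlgHom k K (AlgebraicClosure K)).toLinearMap)
          (Set.range fun j => algebraMap K (AlgebraicClosure K) (S j)))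
          (IsScalarTower.toAlgHom k K (AlgebraicClosure K)).fieldRange ∧
        B.Lab (Set.range fun j => algebraMap K (AlgebraicClosure K) (S j)) ∧
        (∀ z ∈ Z, B.Mono (algebraMap K (AlgebraicClosure K) z)) ∧
        B.Tors (Set.range fun j => algebraMap K (AlgebraicClosure K) (S j)))
    (V : ValuationSubring K) (hV : ZDim k V) : Nonempty (TG.LF n V (LR V P S) S Z) := by
  obtain ⟨𝕂, i1, i2, i3, w, r₀, hr, hrn, hc, hctx⟩ := exists_conv htr hn V hV
  obtain ⟨r, D, B, hdim, hR, hS, hZ, ht⟩ := H 𝕂 w r₀ hr hrn hctx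
  exact exists_LF_Lim hctx.toCtx0 hc hS0 B hdim hR hS hZ ht

/-- `GLim k 0`. -/
theorem glim_zero (k : Type u) [Field k] [IsAlgClosed k] : GLim k 0 := by
  intro K _ _ hK htr Z hZ
  have halg : Algebra.IsAlgebraic k K := by
    rw [← _root_.trdeg_eq_zero_iff, htr]
    exact Nat.cast_zero
  have hsurj : ∀ x : K, ∃ c : k, algebraMap k K c = x :=
    IsAlgClosed.algebraMap_bijective_of_isIntegral.2
  refine ⟨1, 0, Fin.elim0, TG.IsModel.one, ?_, fun j => j.elim0, fun V hV => ?_⟩
  · exact inferInstanceAs (Algebra.IsAlgebraic (IntermediateField.adjoin k _) K)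
  have hval : ∀ z : K, z ≠ 0 → V.valuation z = 1 := by
    intro z hz
    obtain ⟨c, rfl⟩ := hsurj z
    have h1 := (V.valuation_le_one_iff _).2 (hV.ov c)
    have h2 := (V.valuation_le_one_iff _).2 (hV.ov c⁻¹)
    rw [map_inv₀, map_inv₀] at h2
    have h0 : V.valuation (algebraMap k K c) ≠ 0 := (Valuation.ne_zero_iff _).2 hz
    refine le_antisymm h1 ?_
    exact (inv_le_one₀ (zero_lt_iff.2 h0)).1 h2
  have htop : ∀ (A : Subalgebra k K) (x : K), x ∈ A := by
    intro A x
    obtain ⟨c, rfl⟩ := hsurj x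
    exact A.algebraMap_mem c
  exact ⟨{
    r := 0
    D := 0
    dim := rfl
    x := Fin.elim0
    x_ne := fun i => i.elim0
    val := fun a _ => Subsingleton.elim _ _
    y := Fin.elim0
    y_mem := fun i => i.elim0
    y_pos := fun i => i.elim0
    mon_mem := fun a _ => htop _ _
    fgen := ⟨∅, by
      ext x
      exact ⟨fun _ => htop _ _, fun _ => htop _ _⟩⟩
    gen := fun f _ h1 => by
      refine ⟨0, 0, Fin.elim0, Or.inr rfl, htop _ _, fun i => i.elim0, ?_⟩
      by_contra h0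
      have h2 : f ≠ 0 := by
        rintro rfl
        exact h0 (by simp)
      rw [hval f h2] at h1
      exact lt_irrefl _ h1
    S_mono := fun j => j.elim0
    Z_mono := fun z hz => ⟨0, htop _ _, by
      rw [TG.mon_zero, div_one]
      exact hval z (hZ z hz)⟩
    e := 1
    e_pos := one_pos
    tors := fun a => ⟨0, htop _ _, hval _ (by simp [TG.mon])⟩ }⟩

end Pool.Agent.TGLh70
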