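import Pool.Agent.Lib.TGA_h75.LF
import Pool.Agent.Lib.ALLY.Unr

/-!
# TANK G, block END, row E1: limit frames at a valuation ring are local étale over the toric ring
-/

set_option autoImplicit false

open Polynomial

namespace Pool.Agent.TGLh70

open Pool.Agent.LU2 (locV le_locV locV_mono locV_le locV_inv)
open Pool.Agent.TG (Ov ZDim tor UnR LF LE)

universe u

variable {k K : Type u} [Field k] [Field K] [Algebra k K] {V : ValuationSubring K}

/-- The centre of `V`. -/
def ctrV (V : ValuationSubring K) (B : Type*) [CommRing B] [Algebra B K]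
    (h0 : ∀ b : B, algebraMap B K b ∈ V) : Ideal B where
  carrier := {b | V.valuation (algebraMap B K b) < 1}
  add_mem' := fun {a b} ha hb => by
    change V.valuation (algebraMap B K (a + b)) < 1
    rw [map_add]
    exact Valuation.map_add_lt _ ha hb
  zero_mem' := by
    change V.valuation (algebraMap B K 0) < 1
    rw [map_zero, map_zero]
    exact zero_lt_one
  smul_mem' := fun c b hb => by
    change V.valuation (algebraMap B K (c * b)) < 1
    rw [map_mul, map_mul, mul_comm]
    exact mul_lt_one_of_lt_of_le hb ((V.valuation_le_one_iff _).2 (h0 c))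

theorem mem_ctrV {B : Type*} [CommRing B] [Algebra B K]
    (h0 : ∀ b : B, algebraMap B K b ∈ V) {b : B} :
    b ∈ ctrV V B h0 ↔ V.valuation (algebraMap B K b) < 1 := Iff.rfl

theorem val_one_of_not {f : K} (h0 : f ∈ V) (h : ¬ V.valuation f < 1) : V.valuation f = 1 :=
  le_antisymm ((V.valuation_le_one_iff _).2 h0) (not_lt.1 h)

theorem ctrV_isPrime {B : Type*} [CommRing B] [Algebra B K]
    (h0 : ∀ b : B, algebraMap B K b ∈ V) : (ctrV V B h0).IsPrime where
  ne_top' := by
    rw [Ne, Ideal.eq_top_iff_one, mem_ctrV, map_one, map_one]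
    exact lt_irrefl _
  mem_or_mem' := by
    intro a b hab
    rw [mem_ctrV, map_mul] at hab
    by_contra hcon
    rw [not_or, mem_ctrV, mem_ctrV] at hcon
    have h1 := val_one_of_not (h0 a) hcon.1
    have h2 := val_one_of_not (h0 b) hcon.2
    rw [map_mul, h1, h2, one_mul] at hab
    exact lt_irrefl _ hab

/-- A divisor of an element of value `1` has value `1`. -/
theorem val_one_of_mul {f g e : K} (hf : f ∈ V) (hg : g ∈ V) (he : V.valuation e = 1)
    (h : f * g = e) : V.valuation f = 1 := by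
  have h1 : V.valuation f * V.valuation g = 1 := by rw [← map_mul, h, he]
  have h2 := (V.valuation_le_one_iff _).2 hf
  have h3 := (V.valuation_le_one_iff _).2 hg
  refine le_antisymm h2 ?_
  calc (1 : V.ValueGroup) = V.valuation f * V.valuation g := h1.symm
    _ ≤ V.valuation f * 1 := mul_le_mul_right h3 _
    _ = V.valuation f := mul_one _

theorem ne_zero_of_one {f : K} (h : V.valuation f = 1) : f ≠ 0 := by
  rintro rfl
  rw [map_zero] at h
  exact zero_ne_one h

theorem aeval_memV (A : Subalgebra k K) (hA : ∀ a ∈ A, a ∈ V) {θ : K} (hθ : θ ∈ V)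
    (a : A[X]) : aeval θ a ∈ V := by
  rw [aeval_eq_sum_range]
  refine V.toSubring.sum_mem fun i _ => ?_
  have h1 : a.coeff i • θ ^ i = ((a.coeff i : A) : K) * θ ^ i := rfl
  rw [h1]
  exact V.mul_mem _ _ (hA _ (a.coeff i).2) (pow_mem hθ i)

/-- The local structure: `locV B = locV (A[θ])`, `θ` a simple root. -/
theorem exists_simple_rootV (hV : ZDim k V) (A : Subalgebra k K) (F : Finset K)
    (hB : ∀ b ∈ Algebra.adjoin k ((A : Set K) ∪ F), b ∈ V)
    (hgen : ∀ b ∈ Algebra.adjoin k ((A : Set K) ∪ F), V.valuation b < 1 →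
      ∃ s ∈ Algebra.adjoin k ((A : Set K) ∪ F), V.valuation s = 1 ∧
        s * b ∈ Submodule.span (Algebra.adjoin k ((A : Set K) ∪ F))
          {a : K | a ∈ A ∧ V.valuation a < 1}) :
    ∃ (θ : K) (g : Polynomial K), g.Monic ∧ (∀ i, g.coeff i ∈ A) ∧ g.eval θ = 0 ∧
      V.valuation (g.derivative.eval θ) = 1 ∧
      (θ ∈ locV V (Algebra.adjoin k ((A : Set K) ∪ F))) ∧
      ∀ f ∈ Algebra.adjoin k ((A : Set K) ∪ F), f ∈ locV V (Algebra.adjoin k ((A : Set K) ∪ {θ})) := by
  classical
  set B : Subalgebra k K := Algebra.adjoin k ((A : Set K) ∪ F) with hBdef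
  have hAB : A ≤ B := fun a ha => Algebra.subset_adjoin (Or.inl ha)
  let : Algebra A B := (Subalgebra.inclusion hAB).toRingHom.toAlgebra
  have : IsScalarTower A B K := IsScalarTower.of_algebraMap_eq fun a => rfl
  have : IsScalarTower k A B := IsScalarTower.of_algebraMap_eq fun a => rfl
  have : Algebra.FiniteType A B := by
    refine ⟨?_⟩
    rw [Subalgebra.fg_def]
    refine ⟨{b : B | (b : K) ∈ F}, F.finite_toSet.preimage Subtype.val_injective.injOn, ?_⟩
    rw [eq_top_iff]
    rintro ⟨b, hb⟩ -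
    have h1 : ∀ (b : K) (hb : b ∈ B), (⟨b, hb⟩ : B) ∈
        Algebra.adjoin A {b : B | (b : K) ∈ F} := by
      intro b hb
      induction hb using Algebra.adjoin_induction with
      | mem x hx =>
        rcases hx with hx | hx
        · exact Subalgebra.algebraMap_mem (Algebra.adjoin A {b : B | (b : K) ∈ F}) (⟨x, hx⟩ : A)
        · exact Algebra.subset_adjoin hx
      | algebraMap c =>
        exact Subalgebra.algebraMap_mem (Algebra.adjoin A {b : B | (b : K) ∈ F})
          (algebraMap k A c)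
      | add x y hx hy h1 h2 => exact add_mem h1 h2
      | mul x y hx hy h1 h2 => exact mul_mem h1 h2
    exact h1 b hb
  have hB' : ∀ b : B, algebraMap B K b ∈ V := fun b => hB b b.2
  have hA : ∀ a ∈ A, a ∈ V := fun a ha => hB a (hAB ha)
  let q : Ideal B := ctrV V B hB'
  have : q.IsPrime := ctrV_isPrime hB'
  have hres : ∀ b : B, ∃ a : A, b - algebraMap A B a ∈ q := by
    intro b
    obtain ⟨c, hc⟩ := hV.res _ (hB' b)
    exact ⟨algebraMap k A c, hc⟩
  have hgen' : ∀ b ∈ q, ∃ s ∉ q, s * b ∈ (q.under A).map (algebraMap A B) := by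
    rintro ⟨b, hb⟩ hbq
    obtain ⟨s, hs, hvs, hsb⟩ := hgen b hb hbq
    refine ⟨⟨s, hs⟩, fun hsq => ?_, ?_⟩
    · have h1 : V.valuation s < 1 := hsq
      rw [hvs] at h1
      exact lt_irrefl _ h1
    · have h1 : ∀ x ∈ Submodule.span B {a : K | a ∈ A ∧ V.valuation a < 1},
          ∃ y : B, (y : K) = x ∧ y ∈ (q.under A).map (algebraMap A B) := by
        intro x hx
        induction hx using Submodule.span_induction with
        | mem x hx =>
          exact ⟨algebraMap A B ⟨x, hx.1⟩, rfl, Ideal.mem_map_of_mem _ hx.2⟩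
        | zero => exact ⟨0, rfl, zero_mem _⟩
        | add x y _ _ hx hy =>
          obtain ⟨x', rfl, hx'⟩ := hx
          obtain ⟨y', rfl, hy'⟩ := hy
          exact ⟨x' + y', rfl, add_mem hx' hy'⟩
        | smul r x _ hx =>
          obtain ⟨x', rfl, hx'⟩ := hx
          exact ⟨r * x', rfl, Ideal.mul_mem_left _ _ hx'⟩
      obtain ⟨y, hy, hyq⟩ := h1 _ hsb
      have h2 : y = (⟨s, hs⟩ : B) * ⟨b, hb⟩ := Subtype.ext hy
      rwa [h2] at hyq
  have hval : ∀ b ∉ q, V.valuation (algebraMap B K b) = 1 := fun b hb =>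
    val_one_of_not (hB' b) hb
  obtain ⟨f, hf, θ, g, h', hg, h0, ⟨b1, m1, e1⟩, ⟨b2, m2, e2⟩, ⟨b3, m3, e3⟩, hall⟩ :=
    ALLY.exists_theta (L := K) q hres hgen' fun b hb => ne_zero_of_one (hval b hb)
  have hvf := hval f hf
  have hfm : ∀ m : ℕ, V.valuation (algebraMap B K f ^ m) = 1 := fun m => by
    rw [map_pow, hvf, one_pow]
  have hθe : θ = algebraMap B K b1 / algebraMap B K f ^ m1 :=
    (eq_div_iff (ne_zero_of_one (hfm m1))).2 e1
  have hθB : θ ∈ locV V B := ⟨b1, b1.2, (f : K) ^ m1, pow_mem f.2 m1, hfm m1, hθe⟩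
  have hθ : θ ∈ V := by
    rw [← V.valuation_le_one_iff, hθe, map_div₀, hfm, div_one, V.valuation_le_one_iff]
    exact hB' b1
  have hD := val_one_of_mul (aeval_memV A hA hθ (derivative g)) (hB' b3) (hfm m3) e3
  have hH := val_one_of_mul (aeval_memV A hA hθ h') (hB' b2) (hfm m2) e2
  refine ⟨θ, g.map (algebraMap A K), hg.map _, ?_, ?_, ?_, hθB, ?_⟩
  · intro i
    rw [coeff_map]
    exact (g.coeff i).2
  · rw [eval_map_algebraMap]
    exact h0
  · rw [derivative_map, eval_map_algebraMap]
    exact hD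
  · intro b hb
    obtain ⟨a, m, ha⟩ := hall ⟨b, hb⟩
    refine ⟨aeval θ a, ALLY.aeval_mem_adjoin A θ a, aeval θ h' ^ m,
      pow_mem (ALLY.aeval_mem_adjoin A θ h') m, ?_, ?_⟩
    · rw [map_pow, hH, one_pow]
    · rw [eq_div_iff (pow_ne_zero m (ne_zero_of_one hH))]
      exact ha

/-- Clearing the denominators. -/
theorem span_clearV (B : Subalgebra k K) (T : Set K) :
    ∀ x ∈ Submodule.span (locV V B) T, ∃ s ∈ B, V.valuation s = 1 ∧
      s * x ∈ Submodule.span B T := by
  intro x hx
  induction hx using Submodule.span_induction with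
  | mem x hx =>
    exact ⟨1, one_mem _, map_one _, by
      rw [one_mul]; exact Submodule.subset_span hx⟩
  | zero =>
    exact ⟨1, one_mem _, map_one _, by
      rw [mul_zero]; exact zero_mem _⟩
  | add x y _ _ hx hy =>
    obtain ⟨s, hs, hvs, h1⟩ := hx
    obtain ⟨t, ht, hvt, h2⟩ := hy
    refine ⟨s * t, mul_mem hs ht, by rw [map_mul, hvs, hvt, one_mul], ?_⟩
    have h3 : s * t * (x + y) = t * (s * x) + s * (t * y) := by ring
    rw [h3]
    exact add_mem (Submodule.smul_mem _ (⟨t, ht⟩ : B) h1)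
      (Submodule.smul_mem _ (⟨s, hs⟩ : B) h2)
  | smul r x _ hx =>
    obtain ⟨s, hs, hvs, h1⟩ := hx
    obtain ⟨a, ha, b, hb, hvb, hr⟩ := r.2
    refine ⟨b * s, mul_mem hb hs, by rw [map_mul, hvb, hvs, one_mul], ?_⟩
    have hb0 := ne_zero_of_one hvb
    have h3 : b * s * (r • x) = a * (s * x) := by
      have h4 : r • x = (r : K) * x := rfl
      rw [h4, hr]
      field_simp
    rw [h3]
    exact Submodule.smul_mem _ (⟨a, ha⟩ : B) h1

/-- **Row E1**: frame form implies étale form. -/
theorem rowE1 {n : ℕ} (hV : ZDim k V) {R : Subalgebra k K} (hR : ∀ f ∈ R, f ∈ V)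
    {ι : Type} [Fintype ι] {S : ι → K} {Z : Set K} (F : LF n V R S Z) :
    Nonempty (LE n V R S Z) := by
  obtain ⟨T, hT⟩ := F.fgen
  set A := tor k F.x F.y {a | TG.mon F.x a ∈ V} with hA
  set B := Algebra.adjoin k ((A : Set K) ∪ T) with hB
  have hBR : B ≤ R := by
    rw [hT]
    exact le_locV _
  have hRB : ∀ f ∈ R, f ∈ locV V B := fun f hf => by
    rw [hT] at hf
    exact hf
  have hxA : ∀ a, TG.mon F.x a ∈ V → TG.mon F.x a ∈ A := fun a ha =>
    Algebra.subset_adjoin (Or.inl ⟨a, ha, rfl⟩)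
  have hyA : ∀ i, F.y i ∈ A := fun i => Algebra.subset_adjoin (Or.inr ⟨i, rfl⟩)
  obtain ⟨θ, g, hg, hgA, h0, h1, hθ, hall⟩ := exists_simple_rootV hV A T (fun b hb => hR b (hBR hb))
    fun b hb hvb => by
      have h2 : b ∈ Submodule.span (locV V B) {a : K | a ∈ A ∧ V.valuation a < 1} := by
        obtain ⟨a, c, d, hac, hc, hd, rfl⟩ := F.gen b (hBR hb) hvb
        have hc' := hRB c hc
        have hd' := fun i => hRB _ (hd i)
        refine Submodule.add_mem _ ?_ (Submodule.sum_mem _ fun i _ => ?_)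
        · rcases hac with h3 | rfl
          · rw [mul_comm]
            exact Submodule.smul_mem _ (⟨c, hc'⟩ : locV V B) (Submodule.subset_span
              ⟨hxA a ((V.valuation_le_one_iff _).1 h3.le), h3⟩)
          · rw [mul_zero]
            exact Submodule.zero_mem _
        · rw [mul_comm]
          exact Submodule.smul_mem _ (⟨d i, hd' i⟩ : locV V B) (Submodule.subset_span
            ⟨hyA i, F.y_pos i⟩)
      exact span_clearV B _ b h2
  refine ⟨{
    toLF := F
    θ := θ
    Φ := g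
    monic := hg
    coeff := hgA
    root := h0
    der := h1
    ring := le_antisymm ?_ ?_ }⟩
  · conv_lhs => rw [hT]
    exact locV_le hall fun f hf h => locV_inv hf h
  · refine locV_le ?_ fun f hf h => ?_
    · rw [Algebra.adjoin_le_iff]
      rintro x (hx | hx)
      · exact hBR (Algebra.subset_adjoin (Or.inl hx))
      · rw [Set.mem_singleton_iff] at hx
        rw [hx, hT]
        exact hθ
    · rw [hT] at hf ⊢
      exact locV_inv hf h

end Pool.Agent.TGLh70
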