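import Pool.Agent.Lib.TGL.Defs
import Pool.Agent.Lib.ALLY.Unr
import Pool.Agent.Lib.ALLY_h64.Str

/-!
# TANK G, TRACK L, row CONV (second half), part 1: limit frames are local etale over
`k[χ(Γ ≥ 0), y]`
-/

set_option autoImplicit false

namespace Pool.Agent.TGLh70

open Pool.Agent.TAO (OVal VPos Ctx0)
open Pool.Agent.ALLO (locv icl ICl)
open Pool.Agent.ALLh64 (le_locv locv_mono locv_le locv_inv locv_nonneg)
open Pool.Agent.TGL

universe u w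

section

variable {k Ω : Type u} [Field k] [Field Ω] [Algebra k Ω]
  {𝕂 : Type w} [Field 𝕂] [LinearOrder 𝕂] [IsStrictOrderedRing 𝕂] {v : OVal 𝕂 Ω} {n r D : ℕ}

/-- The algebra `k[χ(Γ ≥ 0), y]`. -/
def PA (B : LF k v r D) : Subalgebra k Ω :=
  Algebra.adjoin k (B.χ '' {γ | γ ∈ B.Γ ∧ 0 ≤ γ} ∪ Set.range B.y)

theorem χ_mem_PA (B : LF k v r D) {γ : 𝕂} (hγ : γ ∈ B.Γ) (h0 : 0 ≤ γ) : B.χ γ ∈ PA B :=
  Algebra.subset_adjoin (Or.inl ⟨γ, ⟨hγ, h0⟩, rfl⟩)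

theorem y_mem_PA (B : LF k v r D) (i : Fin D) : B.y i ∈ PA B :=
  Algebra.subset_adjoin (Or.inr ⟨i, rfl⟩)

theorem PA_le (B : LF k v r D) : PA B ≤ B.R := by
  rw [PA, Algebra.adjoin_le_iff]
  rintro x (⟨γ, ⟨hγ, h0⟩, rfl⟩ | ⟨i, rfl⟩)
  · exact B.χ_mem γ hγ h0
  · exact B.y_mem i

theorem locv_R (B : LF k v r D) : locv v B.R = B.R :=
  le_antisymm (locv_le le_rfl B.loc) (le_locv v _)

/-- The ring of a limit frame is the localisation at the centre of `k[χ(Γ ≥ 0), y][θ]`, `θ` a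
simple root of a monic polynomial. -/
theorem exists_et (h : Ctx0 k v n) (B : LF k v r D) :
    ∃ θ ∈ B.R, ∃ g : Polynomial Ω, g.Monic ∧ (∀ i, g.coeff i ∈ PA B) ∧ g.eval θ = 0 ∧
      g.derivative.eval θ ≠ 0 ∧ v (g.derivative.eval θ) = 0 ∧
      B.R = locv v (Algebra.adjoin k ((PA B : Set Ω) ∪ {θ})) := by
  obtain ⟨F, hF⟩ := B.fgen
  have hFR : ∀ f ∈ F, f ∈ B.R := by
    intro f hf
    rw [hF]
    exact le_locv v _ (Algebra.subset_adjoin (Or.inl hf))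
  have hAB : Algebra.adjoin k ((F : Set Ω) ∪ B.χ '' {γ | γ ∈ B.Γ ∧ 0 ≤ γ}) ≤
      Algebra.adjoin k ((PA B : Set Ω) ∪ F) := by
    rw [Algebra.adjoin_le_iff]
    rintro x (hx | ⟨γ, ⟨hγ, h0⟩, rfl⟩)
    · exact Algebra.subset_adjoin (Or.inr hx)
    · exact Algebra.subset_adjoin (Or.inl (χ_mem_PA B hγ h0))
  obtain ⟨θ, g, hg, hgA, -, h0, h1, h2, ⟨a, ha, b, hb, hb0, hvb, hθe⟩, hall⟩ :=
    ALLY.exists_root_of_gen h (PA B) B.R (fun a ha => B.nonneg a (PA_le B ha)) (PA_le B) B.nonneg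
      ⟨F, hFR, fun f hf => by
        rw [hF] at hf
        obtain ⟨a, ha, b, hb, hb0, hvb, rfl⟩ := hf
        exact ⟨a, hAB ha, b, hAB hb, hb0, hvb, rfl⟩⟩
      (fun f hf hv => by
        obtain ⟨γ, hγ, a, ha, h1, b, hb, rfl⟩ := B.gen f hf hv
        refine Submodule.add_mem _ ?_ (Submodule.sum_mem _ fun i _ => ?_)
        · rcases h1 with h1 | rfl
          · rw [mul_comm]
            refine Submodule.smul_mem _ (⟨a, ha⟩ : B.R) (Submodule.subset_span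
              ⟨χ_mem_PA B hγ h1.le, fun _ => ?_⟩)
            rw [B.χ_val γ hγ]
            exact h1
          · rw [mul_zero]
            exact Submodule.zero_mem _
        · rw [mul_comm]
          exact Submodule.smul_mem _ (⟨b i, hb i⟩ : B.R) (Submodule.subset_span
            ⟨y_mem_PA B i, fun _ => B.y_pos i⟩))
  have hθ : θ ∈ B.R := by
    rw [hθe, div_eq_mul_inv]
    exact B.R.mul_mem ha (B.loc b hb hb0 hvb)
  refine ⟨θ, hθ, g, hg, hgA, h0, h1, h2, le_antisymm (fun f hf => hall f hf) ?_⟩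
  refine locv_le ?_ B.loc
  rw [Algebra.adjoin_le_iff]
  rintro x (hx | hx)
  · exact PA_le B hx
  · rw [Set.mem_singleton_iff] at hx
    rw [hx]
    exact hθ

/-! ### A basis of the group of exponents -/

theorem χ_zero (B : LF k v r D) : B.χ 0 = 1 := by
  have h := B.χ_add 0 B.Γ.zero_mem 0 B.Γ.zero_mem
  rw [add_zero] at h
  have h0 := B.χ_ne 0 B.Γ.zero_mem
  exact (mul_eq_left₀ h0).1 h.symm

/-- The exponents in terms of a basis. -/
theorem exists_basis (B : LF k v r D) : ∃ u : Fin r → 𝕂, (∀ i, u i ∈ B.Γ) ∧ (∀ i, 0 < u i) ∧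
    LinearIndependent ℚ u ∧ ∀ γ ∈ B.Γ, ∃ m : Fin r → ℤ, γ = ∑ i, (m i : 𝕂) * u i := by
  obtain ⟨u, hu⟩ := ALLZO.perron B.Γ B.fg B.rk ∅ (by simp)
  exact ⟨u, hu.mem, hu.pos, hu.ind, hu.gen⟩

/-- The value of an exponent vector. -/
def pr (u : Fin r → 𝕂) (m : Fin r → ℤ) : 𝕂 := ∑ i, (m i : 𝕂) * u i

omit [LinearOrder 𝕂] [IsStrictOrderedRing 𝕂] in
theorem pr_zero (u : Fin r → 𝕂) : pr u 0 = 0 := by simp [pr]

omit [LinearOrder 𝕂] [IsStrictOrderedRing 𝕂] in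
theorem pr_add (u : Fin r → 𝕂) (m m' : Fin r → ℤ) : pr u (m + m') = pr u m + pr u m' := by
  rw [pr, pr, pr, ← Finset.sum_add_distrib]
  refine Finset.sum_congr rfl fun i _ => ?_
  rw [Pi.add_apply, Int.cast_add, add_mul]

omit [LinearOrder 𝕂] [IsStrictOrderedRing 𝕂] in
theorem pr_mem {Γ : AddSubgroup 𝕂} {u : Fin r → 𝕂} (hu : ∀ i, u i ∈ Γ) (m : Fin r → ℤ) :
    pr u m ∈ Γ := by
  refine Γ.sum_mem fun i _ => ?_
  rw [← zsmul_eq_mul]
  exact Γ.zsmul_mem (hu i) _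

theorem pr_eq_zero {u : Fin r → 𝕂} (hu : LinearIndependent ℚ u) {m : Fin r → ℤ}
    (h : pr u m = 0) : m = 0 := by
  rw [← LinearIndependent.iff_fractionRing ℤ ℚ, Fintype.linearIndependent_iff] at hu
  funext i
  refine hu m ?_ i
  rw [← h]
  exact Finset.sum_congr rfl fun i _ => by rw [zsmul_eq_mul]

end

end Pool.Agent.TGLh70
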