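import Pool.Agent.Lib.TGL.Conv1
import Pool.Agent.Lib.TGL_h70.Et

/-!
# TANK G, TRACK L, row CONV (second half), part 2: limit frames read in `K`

`VF V r D R`: a limit frame in the language of valuation rings: `R` is a local ring dominated by
`V`, the localisation at the centre of `k[χ(Γ ≥ 0), y][θ]`, `θ` a simple root of a monic polynomial.
`ofLF`, `toLF`: the translations.
-/

set_option autoImplicit false

open Polynomial

namespace Pool.Agent.TGLh70

open Pool.Agent.LU2 (locV)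
open Pool.Agent.TG (Ov ZDim)
open Pool.Agent.TAO (OVal VPos Ctx0)
open Pool.Agent.ALLO (locv icl ICl)
open Pool.Agent.TGL

universe u w

section

variable {k K : Type u} [Field k] [Field K] [Algebra k K]

/-- The algebra `k[χ(Γ ≥ 0), y]`. -/
def VA (V : ValuationSubring K) {r D : ℕ} (k : Type u) [Field k] [Algebra k K]
    (chi : (Fin r → ℤ) → K) (y : Fin D → K) : Subalgebra k K :=
  Algebra.adjoin k (chi '' {m | chi m ∈ V} ∪ Set.range y)

/-- Limit frames in the language of valuation rings. -/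
structure VF (V : ValuationSubring K) (r D : ℕ) (R : Subalgebra k K) where
  /-- the monomials -/
  chi : (Fin r → ℤ) → K
  chi_zero : chi 0 = 1
  chi_add : ∀ a b, chi (a + b) = chi a * chi b
  chi_inj : ∀ m, V.valuation (chi m) = 1 → m = 0
  /-- the free parameters -/
  y : Fin D → K
  y_ne : ∀ i, y i ≠ 0
  y_lt : ∀ i, V.valuation (y i) < 1
  le : ∀ f ∈ R, f ∈ V
  loc : ∀ f ∈ R, V.valuation f = 1 → f⁻¹ ∈ R
  chi_mem : ∀ m, chi m ∈ V → chi m ∈ R
  y_mem : ∀ i, y i ∈ R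
  gen : ∀ f ∈ R, V.valuation f < 1 → ∃ m, ∃ a ∈ R, (V.valuation (chi m) < 1 ∨ a = 0) ∧
    ∃ b : Fin D → K, (∀ i, b i ∈ R) ∧ f = chi m * a + ∑ i, y i * b i
  /-- the etale element -/
  θ : K
  θ_mem : θ ∈ R
  /-- its equation -/
  P : K[X]
  P_monic : P.Monic
  P_coeff : ∀ i, P.coeff i ∈ VA V k chi y
  P_root : P.eval θ = 0
  P_simple : V.valuation (P.derivative.eval θ) = 1
  eq : R = locV V (Algebra.adjoin k ((VA V k chi y : Set K) ∪ {θ}))

theorem VF.chi_ne {V : ValuationSubring K} {r D : ℕ} {R : Subalgebra k K} (F : VF V r D R)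
    (m : Fin r → ℤ) : F.chi m ≠ 0 := by
  intro h
  have h1 := F.chi_add m (-m)
  rw [add_neg_cancel, F.chi_zero, h, zero_mul] at h1
  exact one_ne_zero h1

end

section

variable {k K Ω : Type u} [Field k] [Field K] [Field Ω] [Algebra k K] [Algebra k Ω]
  {𝕂 : Type w} [Field 𝕂] [LinearOrder 𝕂] [IsStrictOrderedRing 𝕂]
  {V : ValuationSubring K} {ι : K →ₐ[k] Ω} {w : OVal 𝕂 Ω} {n r D : ℕ}

/-- Polynomials with coefficients in the image. -/
theorem lift_poly (A : Subalgebra k K) (g : Polynomial Ω) (hg : g.Monic)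
    (hc : ∀ j, g.coeff j ∈ A.map ι) :
    ∃ g' : K[X], g'.Monic ∧ (∀ j, g'.coeff j ∈ A) ∧ g'.map (ι : K →+* Ω) = g := by
  have hlift : g ∈ Polynomial.lifts (ι : K →+* Ω) := by
    rw [Polynomial.lifts_iff_coeff_lifts]
    intro j
    obtain ⟨a, -, ha⟩ := hc j
    exact ⟨a, ha⟩
  obtain ⟨g', hg', -, hm⟩ := Polynomial.lifts_and_natDegree_eq_and_monic hlift hg
  refine ⟨g', hm, fun j => ?_, hg'⟩
  have h1 := hc j
  rw [← hg', coeff_map] at h1
  exact mem_map_iff.1 h1

theorem χ_mem_range (B : LF k w r D) (hB : ∀ f ∈ B.R, f ∈ ι.fieldRange) {γ : 𝕂}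
    (hγ : γ ∈ B.Γ) : ∃ x : K, ι x = B.χ γ := by
  rcases le_total 0 γ with h0 | h0
  · exact hB _ (B.χ_mem γ hγ h0)
  · obtain ⟨x, hx⟩ := hB _ (B.χ_mem (-γ) (B.Γ.neg_mem hγ) (by linarith))
    refine ⟨x⁻¹, ?_⟩
    have h1 := B.χ_add γ hγ (-γ) (B.Γ.neg_mem hγ)
    rw [add_neg_cancel, χ_zero] at h1
    have hx' : ι x = B.χ (-γ) := hx
    rw [map_inv₀, hx']
    exact inv_eq_of_mul_eq_one_left h1.symm

/-- **Limit frames read in `K`.** -/
theorem ofLF (h : Ctx0 k w n) (hc : Cmp V ι w) (B : LF k w r D)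
    (hB : ∀ f ∈ B.R, f ∈ ι.fieldRange) :
    ∃ F : VF V r D (B.R.comap ι), (∀ m, ∃ γ ∈ B.Γ, ι (F.chi m) = B.χ γ) ∧
      (∀ γ ∈ B.Γ, ∃ m, ι (F.chi m) = B.χ γ) ∧ ∀ i, ι (F.y i) = B.y i := by
  classical
  obtain ⟨u, huΓ, -, hui, hgen⟩ := exists_basis B
  have hpr : ∀ m, pr u m ∈ B.Γ := fun m => pr_mem huΓ m
  choose chi hchi using fun m => χ_mem_range B hB (hpr m)
  choose y hy using fun i => hB _ (B.y_mem i)
  have hy' : ∀ i, ι (y i) = B.y i := hy
  have hchi0 : ∀ m, chi m ≠ 0 := by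
    intro m h0
    refine B.χ_ne _ (hpr m) ?_
    rw [← hchi, h0, map_zero]
  have hval : ∀ m, w (ι (chi m)) = pr u m := fun m => by rw [hchi, B.χ_val _ (hpr m)]
  have hmemV : ∀ m, chi m ∈ V ↔ 0 ≤ pr u m := fun m => by rw [hc _ (hchi0 m), hval]
  have hmap : (VA V k chi y).map ι = PA B := by
    rw [VA, PA, AlgHom.map_adjoin]
    congr 1
    ext x
    constructor
    · rintro ⟨_, ⟨m, hm, rfl⟩ | ⟨i, rfl⟩, rfl⟩
      · exact Or.inl ⟨pr u m, ⟨hpr m, (hmemV m).1 hm⟩, (hchi m).symm⟩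
      · exact Or.inr ⟨i, (hy' i).symm⟩
    · rintro (⟨γ, ⟨hγ, h0⟩, rfl⟩ | ⟨i, rfl⟩)
      · obtain ⟨m, hm⟩ := hgen γ hγ
        have hm' : γ = pr u m := hm
        refine ⟨chi m, Or.inl ⟨m, (hmemV m).2 (hm' ▸ h0), rfl⟩, ?_⟩
        rw [hm']
        exact hchi m
      · exact ⟨y i, Or.inr ⟨i, rfl⟩, hy' i⟩
  obtain ⟨θ₀, hθ₀, g, hg, hgc, hg0, hg1, hg2, hR⟩ := exists_et h B
  obtain ⟨θ, hθ⟩ := hB _ hθ₀
  have hθ' : ι θ = θ₀ := hθ
  obtain ⟨P, hP, hPc, hPg⟩ := lift_poly (ι := ι) (VA V k chi y) g hg (by rw [hmap]; exact hgc)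
  have hev : ∀ q : K[X], ι (q.eval θ) = (q.map (ι : K →+* Ω)).eval θ₀ := by
    intro q
    rw [← hθ', Polynomial.eval_map]
    exact (Polynomial.eval₂_at_apply (ι : K →+* Ω) θ).symm
  have hder : ι (P.derivative.eval θ) = g.derivative.eval θ₀ := by
    rw [hev, ← Polynomial.derivative_map, hPg]
  have hder0 : P.derivative.eval θ ≠ 0 := by
    intro h0
    rw [h0, map_zero] at hder
    exact hg1 hder.symm
  refine ⟨{
    chi := chi
    chi_zero := ι_inj (ι := ι) (by rw [hchi, pr_zero, χ_zero, map_one])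
    chi_add := fun a b => ι_inj (ι := ι) (by
      rw [map_mul, hchi, hchi, hchi, pr_add, B.χ_add _ (hpr a) _ (hpr b)])
    chi_inj := fun m hm => by
      rw [hc.one_iff (hchi0 m), hval] at hm
      exact pr_eq_zero hui hm
    y := y
    y_ne := fun i h0 => B.y_ne i (by rw [← hy', h0, map_zero])
    y_lt := fun i => by
      rw [hc.lt_one_iff, hy']
      exact fun _ => B.y_pos i
    le := fun f hf => by
      rw [hc.mem_iff]
      exact B.nonneg _ hf
    loc := fun f hf h1 => by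
      have hf0 : f ≠ 0 := by
        rintro rfl
        rw [map_zero] at h1
        exact zero_ne_one h1
      change ι f⁻¹ ∈ B.R
      rw [map_inv₀]
      exact B.loc _ hf (ι_ne hf0) ((hc.one_iff hf0).1 h1)
    chi_mem := fun m hm => by
      change ι (chi m) ∈ B.R
      rw [hchi]
      exact B.χ_mem _ (hpr m) ((hmemV m).1 hm)
    y_mem := fun i => by
      change ι (y i) ∈ B.R
      rw [hy']
      exact B.y_mem i
    gen := fun f hf h1 => by
      obtain ⟨γ, hγ, a, ha, hγa, b, hb, hfe⟩ := B.gen _ hf ((hc.lt_one_iff _).1 h1)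
      obtain ⟨m, hm⟩ := hgen γ hγ
      have hm' : γ = pr u m := hm
      obtain ⟨a', ha'⟩ := hB a ha
      have ha'' : ι a' = a := ha'
      choose b' hb' using fun i => hB _ (hb i)
      have hb'' : ∀ i, ι (b' i) = b i := hb'
      refine ⟨m, a', ?_, ?_, b', fun i => ?_, ι_inj (ι := ι) ?_⟩
      · change ι a' ∈ B.R
        rw [ha'']
        exact ha
      · rcases hγa with h2 | h2
        · left
          rw [hc.lt_one_iff]
          intro _
          rw [hval, ← hm']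
          exact h2
        · right
          refine ι_inj (ι := ι) ?_
          rw [ha'', h2, map_zero]
      · change ι (b' i) ∈ B.R
        rw [hb'']
        exact hb i
      · have hfe' : ι f = B.χ γ * a + ∑ i, B.y i * b i := hfe
        rw [map_add, map_mul, map_sum, hfe', hchi, ← hm', ha'']
        congr 1
        refine Finset.sum_congr rfl fun i _ => ?_
        rw [map_mul, hy', hb'']
    θ := θ
    θ_mem := by
      change ι θ ∈ B.R
      rw [hθ']
      exact hθ₀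
    P := P
    P_monic := hP
    P_coeff := hPc
    P_root := ι_inj (ι := ι) (by rw [hev, hPg, hg0, map_zero])
    P_simple := by
      rw [hc.one_iff hder0, hder]
      exact hg2
    eq := by
      refine map_injective (ι := ι) ?_
      change (B.R.comap ι).map ι = (locV V _).map ι
      rw [map_comap hB, hc.map_locV, AlgHom.map_adjoin, Set.image_union, Set.image_singleton, hθ']
      conv_lhs => rw [hR, ← hmap]
      rfl }, fun m => ⟨pr u m, hpr m, hchi m⟩, fun γ hγ => ?_, hy'⟩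
  obtain ⟨m, hm⟩ := hgen γ hγ
  have hm' : γ = pr u m := hm
  exact ⟨m, by rw [hm']; exact hchi m⟩

/-! ### From `K` to `Ω` -/

/-- The values of the monomials. -/
noncomputable def VF.phi (hc : Cmp V ι w) {R : Subalgebra k K} (F : VF V r D R) :
    (Fin r → ℤ) →+ 𝕂 where
  toFun m := w (ι (F.chi m))
  map_zero' := by
    have _ := hc
    rw [F.chi_zero, map_one, w.map_one]
  map_add' a b := by
    rw [F.chi_add, map_mul, w.map_mul (ι_ne (F.chi_ne a)) (ι_ne (F.chi_ne b))]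

theorem VF.phi_apply (hc : Cmp V ι w) {R : Subalgebra k K} (F : VF V r D R) (m : Fin r → ℤ) :
    F.phi hc m = w (ι (F.chi m)) := rfl

theorem VF.phi_inj (hc : Cmp V ι w) {R : Subalgebra k K} (F : VF V r D R) :
    Function.Injective (F.phi hc) := by
  rw [injective_iff_map_eq_zero]
  intro m hm
  exact F.chi_inj m ((hc.one_iff (F.chi_ne m)).2 hm)

open Classical in
/-- The monomials as a function of the value. -/
noncomputable def VF.chiO (hc : Cmp V ι w) {R : Subalgebra k K} (F : VF V r D R) (γ : 𝕂) : Ω :=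
  if h : ∃ m, F.phi hc m = γ then ι (F.chi h.choose) else 1

theorem VF.chiO_phi (hc : Cmp V ι w) {R : Subalgebra k K} (F : VF V r D R) (m : Fin r → ℤ) :
    F.chiO hc (F.phi hc m) = ι (F.chi m) := by
  have h : ∃ m', F.phi hc m' = F.phi hc m := ⟨m, rfl⟩
  rw [VF.chiO, dif_pos h, F.phi_inj hc h.choose_spec]

theorem VF.phi_sum (hc : Cmp V ι w) {R : Subalgebra k K} (F : VF V r D R) (m : Fin r → ℤ) :
    F.phi hc m = ∑ i, (m i) • F.phi hc (Pi.single i 1) := by
  have h1 : m = ∑ i, m i • (Pi.single i 1 : Fin r → ℤ) := by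
    ext j
    simp [Finset.sum_apply, Pi.single_apply]
  conv_lhs => rw [h1]
  rw [map_sum]
  exact Finset.sum_congr rfl fun i _ => by rw [map_zsmul]

/-- **Limit frames of `K` read in `Ω`.** -/
noncomputable def VF.toLF (hc : Cmp V ι w) {R : Subalgebra k K} (F : VF V r D R) : LF k w r D where
  Γ := (F.phi hc).range
  fg := (AddGroup.fg_iff_addSubgroup_fg _).1 inferInstance
  rk := by
    refine ⟨fun i => F.phi hc (Pi.single i 1), ?_, fun i => ⟨_, rfl⟩, ?_⟩
    · rw [← LinearIndependent.iff_fractionRing ℤ ℚ, Fintype.linearIndependent_iff]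
      intro c h i
      rw [← F.phi_sum hc c] at h
      rw [(injective_iff_map_eq_zero _).1 (F.phi_inj hc) c h]
      rfl
    · rintro _ ⟨m, rfl⟩
      rw [F.phi_sum hc m]
      refine Submodule.sum_mem _ fun i _ => ?_
      have h1 : (m i) • F.phi hc (Pi.single i 1) = ((m i : ℤ) : ℚ) • F.phi hc (Pi.single i 1) := by
        rw [Int.cast_smul_eq_zsmul]
      rw [h1]
      exact Submodule.smul_mem _ _ (Submodule.subset_span ⟨i, rfl⟩)
  χ := F.chiO hc
  χ_ne := by
    rintro _ ⟨m, rfl⟩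
    rw [F.chiO_phi]
    exact ι_ne (F.chi_ne m)
  χ_add := by
    rintro _ ⟨m, rfl⟩ _ ⟨m', rfl⟩
    rw [← map_add, F.chiO_phi, F.chiO_phi, F.chiO_phi, F.chi_add, map_mul]
  χ_val := by
    rintro _ ⟨m, rfl⟩
    rw [F.chiO_phi]
    rfl
  y := fun i => ι (F.y i)
  y_ne := fun i => ι_ne (F.y_ne i)
  y_pos := fun i => (hc.lt_one_iff _).1 (F.y_lt i) (ι_ne (F.y_ne i))
  R := R.map ι
  nonneg := by
    rintro _ ⟨f, hf, rfl⟩
    exact (hc.mem_iff f).1 (F.le f hf)
  loc := by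
    rintro _ ⟨f, hf, rfl⟩ h0 h1
    have hf0 : f ≠ 0 := by
      rintro rfl
      exact h0 (map_zero ι)
    exact ⟨f⁻¹, F.loc f hf ((hc.one_iff hf0).2 h1), map_inv₀ ι f⟩
  χ_mem := by
    rintro _ ⟨m, rfl⟩ h0
    rw [F.chiO_phi]
    exact ⟨F.chi m, F.chi_mem m ((hc _ (F.chi_ne m)).2 h0), rfl⟩
  y_mem := fun i => ⟨F.y i, F.y_mem i, rfl⟩
  fgen := by
    classical
    refine ⟨insert (ι F.θ) (Finset.univ.image fun i => ι (F.y i)), ?_⟩
    have h1 : (VA V k F.chi F.y).map ι ≤ Algebra.adjoin k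
        (((insert (ι F.θ) (Finset.univ.image fun i => ι (F.y i)) : Finset Ω) : Set Ω) ∪
        F.chiO hc '' {γ | γ ∈ (F.phi hc).range ∧ 0 ≤ γ}) := by
      rw [VA, AlgHom.map_adjoin, Algebra.adjoin_le_iff]
      rintro _ ⟨_, ⟨m, hm, rfl⟩ | ⟨i, rfl⟩, rfl⟩
      · exact Algebra.subset_adjoin (Or.inr ⟨F.phi hc m, ⟨⟨m, rfl⟩, (hc _ (F.chi_ne m)).1 hm⟩,
          F.chiO_phi hc m⟩)
      · refine Algebra.subset_adjoin (Or.inl ?_)
        rw [Finset.coe_insert, Finset.coe_image]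
        exact Or.inr ⟨i, Finset.mem_coe.2 (Finset.mem_univ i), rfl⟩
    conv_lhs => rw [F.eq]
    rw [hc.map_locV, AlgHom.map_adjoin, Set.image_union, Set.image_singleton]
    congr 1
    refine le_antisymm ?_ ?_
    · rw [Algebra.adjoin_le_iff]
      rintro x (⟨f, hf, rfl⟩ | hx)
      · exact h1 ⟨f, hf, rfl⟩
      · rw [Set.mem_singleton_iff] at hx
        rw [hx]
        refine Algebra.subset_adjoin (Or.inl ?_)
        rw [Finset.coe_insert]
        exact Or.inl rfl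
    · rw [Algebra.adjoin_le_iff]
      rintro x (hx | ⟨γ, ⟨⟨m, rfl⟩, h0⟩, rfl⟩)
      · rw [Finset.coe_insert, Finset.coe_image] at hx
        rcases hx with rfl | ⟨i, -, rfl⟩
        · exact Algebra.subset_adjoin (Or.inr rfl)
        · exact Algebra.subset_adjoin (Or.inl ⟨F.y i,
            Algebra.subset_adjoin (Or.inr ⟨i, rfl⟩), rfl⟩)
      · rw [F.chiO_phi]
        exact Algebra.subset_adjoin (Or.inl ⟨F.chi m,
          Algebra.subset_adjoin (Or.inl ⟨m, (hc _ (F.chi_ne m)).2 h0, rfl⟩), rfl⟩)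
  gen := by
    rintro _ ⟨f, hf, rfl⟩ h0
    obtain ⟨m, a, ha, h1, b, hb, hfe⟩ := F.gen f hf ((hc.lt_one_iff f).2 h0)
    refine ⟨F.phi hc m, ⟨m, rfl⟩, ι a, ⟨a, ha, rfl⟩, ?_, fun i => ι (b i),
      fun i => ⟨b i, hb i, rfl⟩, ?_⟩
    · rcases h1 with h1 | h1
      · exact Or.inl ((hc.lt_one_iff _).1 h1 (ι_ne (F.chi_ne m)))
      · right
        rw [h1, map_zero]
    · rw [F.chiO_phi]
      change ι f = _
      rw [hfe, map_add, map_mul, map_sum]
      congr 1
      exact Finset.sum_congr rfl fun i _ => map_mul ι _ _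

theorem VF.toLF_R (hc : Cmp V ι w) {R : Subalgebra k K} (F : VF V r D R) :
    (F.toLF hc).R = R.map ι := rfl

theorem VF.toLF_y (hc : Cmp V ι w) {R : Subalgebra k K} (F : VF V r D R) (i : Fin D) :
    (F.toLF hc).y i = ι (F.y i) := rfl

theorem VF.mem_toLF_Γ (hc : Cmp V ι w) {R : Subalgebra k K} (F : VF V r D R) {γ : 𝕂} :
    γ ∈ (F.toLF hc).Γ ↔ ∃ m, w (ι (F.chi m)) = γ := Iff.rfl

theorem VF.toLF_χ (hc : Cmp V ι w) {R : Subalgebra k K} (F : VF V r D R) (m : Fin r → ℤ) :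
    (F.toLF hc).χ (w (ι (F.chi m))) = ι (F.chi m) := F.chiO_phi hc m

end

end Pool.Agent.TGLh70
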