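import Pool.Agent.Lib.TGL_h70.Conv2
import Pool.Agent.Lib.TGA_h75.LF

/-!
# TANK G, TRACK L, row CONV (second half), part 3: limit frames over `Ω` give limit frames at `V`
in the sense of `TG.LF`, `TG.LE`
-/

set_option autoImplicit false

open Polynomial

namespace Pool.Agent.TGLh70

open Pool.Agent.LU2 (locV)
open Pool.Agent.TG (Ov ZDim mon mon_add mon_zero mon_neg mon_single mon_ne_zero tor UnR)
open Pool.Agent.TAO (OVal VPos Ctx0)
open Pool.Agent.ALLO (locv icl ICl)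
open Pool.Agent.TGL

universe u w

section

variable {k K : Type u} [Field k] [Field K] [Algebra k K] {V : ValuationSubring K} {r D : ℕ}
  {R : Subalgebra k K}

/-- The homomorphism `χ`. -/
noncomputable def VF.hom (F : VF V r D R) : Multiplicative (Fin r → ℤ) →* Kˣ :=
  MonoidHom.toHomUnits
    { toFun := fun m => F.chi (Multiplicative.toAdd m)
      map_one' := F.chi_zero
      map_mul' := fun _ _ => F.chi_add _ _ }

theorem VF.hom_apply (F : VF V r D R) (m : Fin r → ℤ) :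
    (F.hom (Multiplicative.ofAdd m) : K) = F.chi m := rfl

/-- The basic monomials. -/
def VF.x (F : VF V r D R) (i : Fin r) : K := F.chi (Pi.single i 1)

theorem VF.x_ne (F : VF V r D R) (i : Fin r) : F.x i ≠ 0 := F.chi_ne _

theorem VF.chi_eq (F : VF V r D R) (m : Fin r → ℤ) : F.chi m = TG.mon F.x m := by
  classical
  have h1 : m = ∑ i, m i • (Pi.single i 1 : Fin r → ℤ) := by
    ext j
    simp [Finset.sum_apply, Pi.single_apply]
  have h2 : F.hom (Multiplicative.ofAdd m) =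
      ∏ i, F.hom (Multiplicative.ofAdd (Pi.single i 1 : Fin r → ℤ)) ^ m i := by
    conv_lhs => rw [h1]
    rw [ofAdd_sum, map_prod]
    refine Finset.prod_congr rfl fun i _ => ?_
    rw [ofAdd_zsmul, map_zpow]
  rw [← F.hom_apply, h2, TG.mon, Units.coe_prod]
  refine Finset.prod_congr rfl fun i _ => ?_
  rw [Units.val_zpow_eq_zpow_val, F.hom_apply]
  rfl

theorem VF.chi_eq' (F : VF V r D R) : F.chi = TG.mon F.x := funext F.chi_eq

end

section

variable {k K Ω : Type u} [Field k] [Field K] [Field Ω] [Algebra k K] [Algebra k Ω]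
  {𝕂 : Type w} [Field 𝕂] [LinearOrder 𝕂] [IsStrictOrderedRing 𝕂]
  {V : ValuationSubring K} {ι : K →ₐ[k] Ω} {w : OVal 𝕂 Ω} {n r D : ℕ}

theorem χ_nsmul (B : TGL.LF k w r D) {γ : 𝕂} (hγ : γ ∈ B.Γ) (e : ℕ) :
    (e : 𝕂) * γ ∈ B.Γ ∧ B.χ (e * γ) = B.χ γ ^ e := by
  induction e with
  | zero =>
    rw [Nat.cast_zero, zero_mul, pow_zero]
    exact ⟨B.Γ.zero_mem, χ_zero B⟩
  | succ e ih =>
    have h1 : ((e + 1 : ℕ) : 𝕂) * γ = e * γ + γ := by push_cast; ring
    rw [h1, B.χ_add _ ih.1 _ hγ, ih.2, pow_succ]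
    exact ⟨B.Γ.add_mem ih.1 hγ, rfl⟩

/-- The monomials in the labels. -/
theorem mem_Mo {κ : Type} [Fintype κ] (S : κ → K) (hS : ∀ j, S j ≠ 0) {m : Ωˣ}
    (hm : m ∈ Mo (Set.range fun j => ι (S j))) : ∃ b : κ → ℤ, (m : Ω) = ι (TG.mon S b) := by
  classical
  induction hm using Subgroup.closure_induction with
  | mem x hx =>
    obtain ⟨j, hj⟩ := hx
    exact ⟨Pi.single j 1, by rw [mon_single]; exact hj.symm⟩
  | one => exact ⟨0, by rw [mon_zero, map_one]; rfl⟩
  | mul x y _ _ hx hy =>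
    obtain ⟨a, ha⟩ := hx
    obtain ⟨b, hb⟩ := hy
    exact ⟨a + b, by rw [mon_add hS, map_mul, Units.val_mul, ha, hb]⟩
  | inv x _ hx =>
    obtain ⟨a, ha⟩ := hx
    exact ⟨-a, by rw [mon_neg, map_inv₀, Units.val_inv_eq_inv_val, ha]⟩

theorem unR_iff (hc : Cmp V ι w) {R : Subalgebra k K} (B : TGL.LF k w r D)
    (hR : B.R = R.map ι) {f : K} (hf : f ≠ 0) : UnR V R f ↔ B.Un (ι f) := by
  rw [UnR, hc.one_iff hf, TGL.LF.Un, hR, mem_map_iff]
  exact ⟨fun h => ⟨h.1, ι_ne hf, h.2⟩, fun h => ⟨h.1, h.2.2⟩⟩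

theorem un_inv (B : TGL.LF k w r D) {f : Ω} (hf : B.Un f) : B.Un f⁻¹ :=
  ⟨B.loc f hf.1 hf.2.1 hf.2.2, inv_ne_zero hf.2.1, by rw [w.map_inv hf.2.1, hf.2.2, neg_zero]⟩

/-- **Row CONV, second half.** A limit frame over `Ω` whose ring is `R`, in which the labels `S`
and the elements of `Z` are monomials, gives a limit frame of `R` at `V`, in étale form. -/
theorem exists_LE {n₀ : ℕ} (h : Ctx0 k w n₀) (hc : Cmp V ι w) (B : TGL.LF k w r D)
    (hdim : r + D = n) (R : Subalgebra k K) (hR : B.R = R.map ι) {κ : Type} [Fintype κ]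
    (S : κ → K) (Z : Set K) (hS : B.Lab (Set.range fun j => ι (S j)))
    (hZ : ∀ z ∈ Z, B.Mono (ι z)) (ht : B.Tors (Set.range fun j => ι (S j))) :
    Nonempty (TG.LE n V R S Z) := by
  classical
  have hB : ∀ f ∈ B.R, f ∈ ι.fieldRange := by
    intro f hf
    rw [hR] at hf
    obtain ⟨a, -, ha⟩ := hf
    exact ⟨a, ha⟩
  have hRc : B.R.comap ι = R := by
    ext f
    rw [Subalgebra.mem_comap, hR, mem_map_iff]
  subst hRc
  obtain ⟨F, hF1, hF2, -⟩ := ofLF h hc B hB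
  -- monomials of the frame
  have hmono : ∀ f : K, B.Mono (ι f) → ∃ a : Fin r → ℤ, UnR V (B.R.comap ι) (f / TG.mon F.x a) := by
    rintro f ⟨h0, h1, h2⟩
    have hf0 : f ≠ 0 := by
      rintro rfl
      exact h0 (map_zero ι)
    obtain ⟨m, hm⟩ := hF2 _ h1
    refine ⟨m, ?_⟩
    rw [← F.chi_eq, unR_iff hc B hR (div_ne_zero hf0 (F.chi_ne m)), map_div₀, hm]
    exact h2
  have hVA : VA V k F.chi F.y = tor k F.x F.y {a | TG.mon F.x a ∈ V} := by
    rw [VA, tor, F.chi_eq']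
  obtain ⟨e, he, ht'⟩ := ht
  have hS0 : ∀ j, S j ≠ 0 := by
    intro j h0
    refine (hS _ ⟨j, rfl⟩).1 ?_
    change ι (S j) = 0
    rw [h0, map_zero]
  refine ⟨{
    r := r
    D := D
    dim := hdim
    x := F.x
    x_ne := F.x_ne
    val := fun a ha => F.chi_inj a (by rw [F.chi_eq]; exact ha)
    y := F.y
    y_mem := F.y_mem
    y_pos := F.y_lt
    mon_mem := fun a ha => by
      rw [← F.chi_eq] at ha ⊢
      exact F.chi_mem a ha
    fgen := ⟨{F.θ}, by
      rw [Finset.coe_singleton, ← hVA]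
      exact F.eq⟩
    gen := fun f hf h1 => by
      obtain ⟨m, a, ha, hma, b, hb, hfe⟩ := F.gen f hf h1
      refine ⟨m, a, b, ?_, ha, hb, ?_⟩
      · rw [← F.chi_eq]
        exact hma
      · rw [← F.chi_eq]
        exact hfe
    S_mono := fun j => hmono _ (hS _ ⟨j, rfl⟩)
    Z_mono := fun z hz => hmono z (hZ z hz)
    e := e
    e_pos := he
    tors := fun a => by
      obtain ⟨γ, hγ, hm⟩ := hF1 a
      obtain ⟨m, hmM, hun⟩ := ht' γ hγ
      obtain ⟨b, hb⟩ := mem_Mo (ι := ι) S hS0 hmM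
      refine ⟨b, ?_⟩
      have hne : TG.mon F.x (e • a) / TG.mon S b ≠ 0 :=
        div_ne_zero (mon_ne_zero F.x_ne _) (mon_ne_zero hS0 _)
      rw [unR_iff hc B hR hne, map_div₀, ← hb, TG.mon_nsmul, ← F.chi_eq, map_pow, hm,
        ← (χ_nsmul B hγ e).2, ← inv_div]
      exact un_inv B hun
    θ := F.θ
    Φ := F.P
    monic := F.P_monic
    coeff := fun i => by
      rw [← hVA]
      exact F.P_coeff i
    root := F.P_root
    der := F.P_simple
    ring := by
      rw [← hVA]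
      exact F.eq }⟩

end

end Pool.Agent.TGLh70
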