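import Pool.Agent.Lib.TGL_h70.Conv4
import Pool.Agent.Lib.TGL.GL

/-!
# TANK G, TRACK L: `GLO k n → TG.GLim k n`
-/

set_option autoImplicit false

namespace Pool.Agent.TGLh70

open Pool.Agent.TG (Ov ZDim IsModel Fin' LR UnR GLim)
open Pool.Agent.TAO (OVal VPos Ctx0 CtxR)
open Pool.Agent.ALLO (locv icl ICl)
open Pool.Agent.TGL

universe u

/-- **Row CONV.** The statement of the induction over `OVal` implies the limit statement. -/
theorem glim_of_glo {k : Type u} [Field k] [IsAlgClosed k] {n : ℕ} (h : GLO k n) : GLim k n := by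
  rcases Nat.eq_zero_or_pos n with hn | hn
  · subst hn
    exact glim_zero k
  intro K _ _ hK htr Z hZ
  obtain ⟨P, S, hP, hP', hS, H⟩ := h K hK htr Z hZ
  let e : Fin S.card ≃ S := S.equivFin.symm
  have hrange : (Set.range fun j => ((e j : S) : K)) = (S : Set K) := by
    ext x
    constructor
    · rintro ⟨j, rfl⟩
      exact (e j).2
    · intro hx
      refine ⟨e.symm ⟨x, hx⟩, ?_⟩
      change ((e (e.symm ⟨x, hx⟩) : S) : K) = x
      rw [Equiv.apply_symm_apply]
  refine ⟨P, S.card, fun j => (e j : K), hP, hP', fun j => hS _ (e j).2, fun V hV => ?_⟩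
  refine exists_LF_of htr hn (fun j => hS _ (e j).2) (Z := (Z : Set K)) ?_ V hV
  intro 𝕂 _ _ _ w r₀ _ _ hctx
  have hι : (Set.range fun j => algebraMap K (AlgebraicClosure K) (e j : K)) =
      (IsScalarTower.toAlgHom k K (AlgebraicClosure K)) '' (S : Set K) := by
    rw [← hrange, ← Set.range_comp]
    rfl
  obtain ⟨r, D, C, hdim, hR, -, ht, hl, hz⟩ := H (AlgebraicClosure K)
    (IsScalarTower.toAlgHom k K (AlgebraicClosure K)) 𝕂 w n hctx.toCtx0
  rw [hι]
  exact ⟨r, D, C, hdim, hR, hl, hz, ht⟩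

end Pool.Agent.TGLh70
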